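import Pool.Agent.X328.GN.Stm

/-!
# Project GN, part IT: iterates of `u / w`
-/

set_option autoImplicit false

namespace Pool.Agent.X232.GN

open Finset Polynomial Pool.Agent.W277.UB Pool.Agent.W277.UH
open Pool.Agent.X328.FP (wr vl hQ)
open Pool.Agent.X328.GN (hm it wrA)

universe u v w

section
variable {K : Type*} [Field K]

lemma hm_eval (d : ℕ) (F P Q : K[X]) (x : K) :
    (hm d F P Q).eval x = ∑ i ∈ range (d + 1), F.coeff i * P.eval x ^ i * Q.eval x ^ (d - i) := by
  unfold hm
  rw [eval_finsetSum]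
  refine Finset.sum_congr rfl fun i _ => ?_
  simp

lemma hm_eval_ne (d : ℕ) (F P Q : K[X]) (hF : F.natDegree ≤ d) (x : K) (hQ : Q.eval x ≠ 0) :
    (hm d F P Q).eval x = Q.eval x ^ d * F.eval (P.eval x / Q.eval x) := by
  rw [hm_eval, eval_eq_sum_range' (Nat.lt_succ_of_le hF), Finset.mul_sum]
  refine Finset.sum_congr rfl fun i hi => ?_
  have hi' : i ≤ d := Nat.lt_succ_iff.1 (Finset.mem_range.1 hi)
  obtain ⟨e, rfl⟩ := Nat.exists_eq_add_of_le hi'
  rw [Nat.add_sub_cancel_left, div_pow, pow_add]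
  field_simp

lemma hm_eval_zero (d : ℕ) (F P Q : K[X]) (x : K) (hQ : Q.eval x = 0) :
    (hm d F P Q).eval x = F.coeff d * P.eval x ^ d := by
  rw [hm_eval, Finset.sum_eq_single d]
  · simp
  · intro i hi hne
    have hi' : i < d := lt_of_le_of_ne (Nat.lt_succ_iff.1 (Finset.mem_range.1 hi)) hne
    rw [hQ, zero_pow (by omega), mul_zero]
  · intro h
    exact absurd (Finset.mem_range.2 (Nat.lt_succ_self d)) h

lemma hm_map {L : Type*} [Field L] (φ : K →+* L) (d : ℕ) (F P Q : K[X]) :
    (hm d F P Q).map φ = hm d (F.map φ) (P.map φ) (Q.map φ) := by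
  unfold hm
  rw [Polynomial.map_sum]
  refine Finset.sum_congr rfl fun i _ => ?_
  simp

/-- the derivative of `P ^ i Q ^ (d - i)` at a point -/
lemma mon_der (P Q : K[X]) (x : K) (hQ : Q.eval x ≠ 0) (i e : ℕ) :
    (derivative (P ^ i * Q ^ e)).eval x = Q.eval x ^ (i + e - 1) *
      ((i : K) * (P.eval x / Q.eval x) ^ (i - 1) *
        ((derivative P).eval x - P.eval x / Q.eval x * (derivative Q).eval x) +
        ((i + e : ℕ) : K) * (P.eval x / Q.eval x) ^ i * (derivative Q).eval x) := by
  have hp : P.eval x = P.eval x / Q.eval x * Q.eval x := by field_simp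
  generalize hy : P.eval x / Q.eval x = y at *
  rw [derivative_mul, derivative_pow, derivative_pow]
  simp only [eval_add, eval_mul, eval_pow, eval_natCast, map_natCast]
  rw [hp]
  rcases i with _ | j
  · rcases e with _ | e
    · simp
    · simp only [Nat.zero_add, Nat.add_sub_cancel]
      push_cast
      ring
  · rcases e with _ | e
    · simp only [Nat.add_zero, Nat.add_sub_cancel]
      push_cast
      ring
    · have h1 : j + 1 + (e + 1) - 1 = j + e + 1 := by omega
      rw [h1]
      simp only [Nat.add_sub_cancel]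
      push_cast
      ring

lemma hm_der (d : ℕ) (F P Q : K[X]) (hF : F.natDegree ≤ d) (x : K) (hQ : Q.eval x ≠ 0) :
    (derivative (hm d F P Q)).eval x = Q.eval x ^ (d - 1) *
      ((derivative F).eval (P.eval x / Q.eval x) *
        ((derivative P).eval x - P.eval x / Q.eval x * (derivative Q).eval x) +
        (d : K) * F.eval (P.eval x / Q.eval x) * (derivative Q).eval x) := by
  have h1 : (derivative (hm d F P Q)).eval x = ∑ i ∈ range (d + 1), F.coeff i *
      (Q.eval x ^ (d - 1) *
      ((i : K) * (P.eval x / Q.eval x) ^ (i - 1) *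
        ((derivative P).eval x - P.eval x / Q.eval x * (derivative Q).eval x) +
        (d : K) * (P.eval x / Q.eval x) ^ i * (derivative Q).eval x)) := by
    unfold hm
    rw [derivative_sum, eval_finsetSum]
    refine Finset.sum_congr rfl fun i hi => ?_
    have hi' : i ≤ d := Nat.lt_succ_iff.1 (Finset.mem_range.1 hi)
    rw [mul_assoc, derivative_C_mul, eval_mul, eval_C, mon_der P Q x hQ i (d - i)]
    have h2 : i + (d - i) = d := by omega
    rw [h2]
  have h3 : (derivative F).eval (P.eval x / Q.eval x) =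
      ∑ i ∈ range (d + 1), F.coeff i * i * (P.eval x / Q.eval x) ^ (i - 1) := by
    rw [derivative_eval]
    rw [Polynomial.sum_over_range' F (by intro n; simp) (d + 1) (Nat.lt_succ_of_le hF)]
  rw [h1, h3, eval_eq_sum_range' (Nat.lt_succ_of_le hF), Finset.mul_sum, Finset.sum_mul,
    Finset.sum_mul, ← Finset.sum_add_distrib, Finset.mul_sum]
  refine Finset.sum_congr rfl fun i _ => ?_
  ring

/-- the chain rule for one step -/
lemma wr_step (d : ℕ) (hd : 1 ≤ d) (U W P Q : K[X]) (hU : U.natDegree ≤ d) (hW : W.natDegree ≤ d)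
    (x : K) (hQ : Q.eval x ≠ 0) (hw : W.eval (P.eval x / Q.eval x) ≠ 0) :
    (wrA (hm d U P Q) (hm d W P Q)).eval x / (hm d W P Q).eval x ^ 2 =
      (wrA P Q).eval x / Q.eval x ^ 2 *
      ((wrA U W).eval (P.eval x / Q.eval x) / W.eval (P.eval x / Q.eval x) ^ 2) := by
  have hp : P.eval x = P.eval x / Q.eval x * Q.eval x := by field_simp
  have e1 : ∀ p q : K[X], ∀ y : K, (wrA p q).eval y =
      (derivative p).eval y * q.eval y - p.eval y * (derivative q).eval y := by
    intro p q y
    unfold wrA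
    simp
  rw [e1, e1, e1, hm_der d U P Q hU x hQ, hm_der d W P Q hW x hQ, hm_eval_ne d U P Q hU x hQ,
    hm_eval_ne d W P Q hW x hQ]
  obtain ⟨e, rfl⟩ : ∃ e, d = e + 1 := ⟨d - 1, by omega⟩
  simp only [Nat.add_sub_cancel]
  generalize hy : P.eval x / Q.eval x = y at *
  rw [hp]
  generalize Q.eval x = q at *
  generalize (derivative P).eval x = P'
  generalize (derivative Q).eval x = Q'
  have hq : q ^ (e + 1) ≠ 0 := pow_ne_zero _ hQ
  rw [div_mul_div_comm, div_eq_div_iff (pow_ne_zero _ (mul_ne_zero hq hw))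
    (mul_ne_zero (pow_ne_zero _ hQ) (pow_ne_zero _ hw))]
  ring

/-- degrees -/
lemma hm_deg (d N : ℕ) (F P Q : K[X]) (hN : 1 ≤ N) (hP : P.natDegree = N) (hPm : P.Monic)
    (hQ : Q.natDegree < N) : ∀ j, d * N ≤ j →
      (hm d F P Q).coeff j = if j = d * N then F.coeff d else 0 := by
  intro j hj
  unfold hm
  rw [finsetSum_coeff, Finset.sum_eq_single d]
  · rw [Nat.sub_self, pow_zero, mul_one, coeff_C_mul]
    have hPd : (P ^ d).natDegree = d * N := by rw [hPm.natDegree_pow, hP]
    split_ifs with h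
    · rw [h, ← hPd]
      have : (P ^ d).coeff (P ^ d).natDegree = 1 := (hPm.pow d).leadingCoeff
      rw [this, mul_one]
    · have h5 : (P ^ d).coeff j = 0 := coeff_eq_zero_of_natDegree_lt (by omega)
      rw [h5, mul_zero]
  · intro i hi hne
    have hi' : i < d := lt_of_le_of_ne (Nat.lt_succ_iff.1 (Finset.mem_range.1 hi)) hne
    obtain ⟨e, rfl⟩ := Nat.exists_eq_add_of_lt hi'
    rw [mul_assoc, coeff_C_mul]
    have h1 : (P ^ i * Q ^ (i + e + 1 - i)).natDegree ≤ i * N + (e + 1) * (N - 1) := by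
      refine natDegree_mul_le.trans (Nat.add_le_add ?_ ?_)
      · exact natDegree_pow_le.trans (by rw [hP])
      · have h2 : i + e + 1 - i = e + 1 := by omega
        rw [h2]
        exact natDegree_pow_le.trans (Nat.mul_le_mul le_rfl (by omega))
    have h3 : i * N + (e + 1) * (N - 1) < (i + e + 1) * N := by
      obtain ⟨M, rfl⟩ : ∃ M, N = M + 1 := ⟨N - 1, by omega⟩
      simp only [Nat.add_sub_cancel]
      nlinarith
    have h5 : (P ^ i * Q ^ (i + e + 1 - i)).coeff j = 0 :=
      coeff_eq_zero_of_natDegree_lt (lt_of_le_of_lt h1 (lt_of_lt_of_le h3 hj))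
    rw [h5, mul_zero]
  · intro h
    exact absurd (Finset.mem_range.2 (Nat.lt_succ_self d)) h

lemma cop_iff (P Q : K[X]) : IsCoprime P Q ↔ ∀ a : AlgebraicClosure K,
    ¬ ((P.map (algebraMap K (AlgebraicClosure K))).eval a = 0 ∧
      (Q.map (algebraMap K (AlgebraicClosure K))).eval a = 0) := by
  rw [Polynomial.isCoprime_iff_aeval_ne_zero_of_isAlgClosed K (AlgebraicClosure K)]
  refine forall_congr' fun a => ?_
  rw [eval_map_algebraMap, eval_map_algebraMap]
  tauto

lemma hm_cop (d : ℕ) (U W P Q : K[X]) (hUW : IsCoprime U W) (hU : U.natDegree ≤ d)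
    (hU1 : U.coeff d = 1) (hW : W.natDegree ≤ d) (hPQ : IsCoprime P Q) :
    IsCoprime (hm d U P Q) (hm d W P Q) := by
  rw [cop_iff] at hUW hPQ ⊢
  intro a ⟨h1, h2⟩
  rw [hm_map] at h1 h2
  by_cases hQ : (Q.map (algebraMap K (AlgebraicClosure K))).eval a = 0
  · rw [hm_eval_zero _ _ _ _ _ hQ, coeff_map, hU1, map_one, one_mul] at h1
    exact hPQ a ⟨eq_zero_of_pow_eq_zero h1, hQ⟩
  · rw [hm_eval_ne _ _ _ _ (natDegree_map_le.trans hU) _ hQ] at h1
    rw [hm_eval_ne _ _ _ _ (natDegree_map_le.trans hW) _ hQ] at h2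
    exact hUW _ ⟨(mul_eq_zero.1 h1).resolve_left (pow_ne_zero _ hQ),
      (mul_eq_zero.1 h2).resolve_left (pow_ne_zero _ hQ)⟩

end

theorem t_IT : Pool.Agent.X328.GN.S_IT.{u} := by
  intro K _ d hd U W hUW hUm hUd hWd n
  have hU1 : U.coeff d = 1 := by
    rw [← hUd]
    exact hUm
  have hW0 : W.coeff d = 0 := coeff_eq_zero_of_natDegree_lt hWd
  induction n with
  | zero =>
    refine ⟨isCoprime_one_right, monic_X, by simp [it], by simp [it], ?_, ?_⟩
    · rintro (_ | x)
      · rw [Function.iterate_zero, id, ratP1_none0]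
        rw [pow_zero]
        show (1 : K[X]).coeff 1 = 0
        rw [coeff_one]
        simp
      · rw [Function.iterate_zero, id, ratP1_some _ _ _ _ (by simp [it])]
        simp [it]
    · intro x _
      refine ⟨by simp, by simp [it], by simp [it, wrA]⟩
  | succ n ih =>
    obtain ⟨hc, hm1, hdP, hdQ, hr, hx⟩ := ih
    have hN : 1 ≤ d ^ n := Nat.one_le_pow _ _ (by omega)
    have hN' : 1 ≤ d ^ (n + 1) := Nat.one_le_pow _ _ (by omega)
    set P := (it d U W n).1 with hPdef
    set Q := (it d U W n).2 with hQdef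
    have e1 : (it d U W (n + 1)).1 = hm d U P Q := rfl
    have e2 : (it d U W (n + 1)).2 = hm d W P Q := rfl
    rw [e1, e2]
    have hdd : d ^ (n + 1) = d * d ^ n := by ring
    have hcU := hm_deg d (d ^ n) U P Q hN hdP hm1 hdQ
    have hcW := hm_deg d (d ^ n) W P Q hN hdP hm1 hdQ
    have hdegU : (hm d U P Q).natDegree = d ^ (n + 1) := by
      rw [hdd]
      apply le_antisymm
      · rw [natDegree_le_iff_coeff_eq_zero]
        intro j hj
        rw [hcU j (by exact hj.le), if_neg (by omega)]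
      · refine le_natDegree_of_ne_zero ?_
        rw [hcU _ le_rfl, if_pos rfl, hU1]
        exact one_ne_zero
    have hmon : (hm d U P Q).Monic := by
      show (hm d U P Q).coeff (hm d U P Q).natDegree = 1
      rw [hdegU, hdd, hcU _ le_rfl, if_pos rfl, hU1]
    have hdegW : (hm d W P Q).natDegree < d ^ (n + 1) := by
      rw [hdd]
      have h0 : (hm d W P Q).natDegree ≤ d * d ^ n - 1 := by
        rw [natDegree_le_iff_coeff_eq_zero]
        intro j hj
        rw [hcW j (by omega)]
        split_ifs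
        · exact hW0
        · rfl
      have : 1 ≤ d * d ^ n := by rw [← hdd]; exact hN'
      omega
    refine ⟨hm_cop d U W P Q hUW hUd.le hU1 hWd.le hc, hmon, hdegU, hdegW, ?_, ?_⟩
    · intro z
      rw [Function.iterate_succ_apply', ← hr z]
      rcases z with _ | x
      · rw [ratP1_none0 _ _ _ (coeff_eq_zero_of_natDegree_lt hdegW),
          ratP1_none0 _ _ _ (coeff_eq_zero_of_natDegree_lt hdQ), ratP1_none0 _ _ _ hW0]
      · by_cases hQ : Q.eval x = 0
        · rw [ratP1_some0 P Q _ x hQ, ratP1_none0 _ _ _ hW0, ratP1_some0]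
          rw [hm_eval_zero _ _ _ _ _ hQ, hW0, zero_mul]
        · rw [ratP1_some P Q _ x hQ]
          by_cases hw : W.eval (P.eval x / Q.eval x) = 0
          · rw [ratP1_some0 _ _ _ _ hw, ratP1_some0]
            rw [hm_eval_ne _ _ _ _ hWd.le _ hQ, hw, mul_zero]
          · rw [ratP1_some _ _ _ _ hw, ratP1_some]
            · rw [hm_eval_ne _ _ _ _ hWd.le _ hQ, hm_eval_ne _ _ _ _ hUd.le _ hQ,
                mul_div_mul_left _ _ (pow_ne_zero _ hQ)]
            · rw [hm_eval_ne _ _ _ _ hWd.le _ hQ]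
              exact mul_ne_zero (pow_ne_zero _ hQ) hw
    · intro x hx0
      have hQ : Q.eval x ≠ 0 := by
        intro h
        apply hx0
        rw [hm_eval_zero _ _ _ _ _ h, hW0, zero_mul]
      obtain ⟨i1, i2, i3⟩ := hx x hQ
      have hw : W.eval (P.eval x / Q.eval x) ≠ 0 := by
        intro h
        apply hx0
        rw [hm_eval_ne _ _ _ _ hWd.le _ hQ, h, mul_zero]
      refine ⟨?_, ?_, ?_⟩
      · intro m hmn
        rcases Nat.lt_succ_iff_lt_or_eq.1 hmn with h | h
        · exact i1 m h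
        · rw [h, ← i2]
          exact hw
      · rw [Function.iterate_succ_apply', ← i2, hm_eval_ne _ _ _ _ hWd.le _ hQ,
          hm_eval_ne _ _ _ _ hUd.le _ hQ, mul_div_mul_left _ _ (pow_ne_zero _ hQ)]
        rfl
      · rw [wr_step d (by omega) U W P Q hUd.le hWd.le x hQ hw, i3, Finset.prod_range_succ, ← i2]

end Pool.Agent.X232.GN
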